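import Pool.Agent.Helper6.NS.Defs

namespace Pool.Agent.Helper78.KU

open CategoryTheory CategoryTheory.Limits CategoryTheory.Pretriangulated Module
open CategoryTheory.Triangulated
open Pool.Agent.Helper6.KE Pool.Agent.Helper6.NS

universe v u w

variable {C : Type u} [Category.{v} C] [Preadditive C] [HasZeroObject C] [HasShift C ℤ]
  [∀ n : ℤ, (shiftFunctor C n).Additive] [Pretriangulated C]

/-- A distinguished triangle of shifted objects can be unshifted. -/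
theorem unshift {X Y Z : C} (a : X⟦(1 : ℤ)⟧ ⟶ Y⟦(1 : ℤ)⟧) (b : Y⟦(1 : ℤ)⟧ ⟶ Z⟦(1 : ℤ)⟧)
    (c : Z⟦(1 : ℤ)⟧ ⟶ X⟦(1 : ℤ)⟧⟦(1 : ℤ)⟧) (h : Triangle.mk a b c ∈ distTriang C) :
    ∃ (f : X ⟶ Y) (g : Y ⟶ Z) (δ : Z ⟶ X⟦(1 : ℤ)⟧), Triangle.mk f g δ ∈ distTriang C := by
  obtain ⟨f, hf⟩ := (shiftFunctor C (1 : ℤ)).map_surjective (-a)
  obtain ⟨Z', g', δ', hT⟩ := distinguished_cocone_triangle f
  have h3 := rot_of_distTriang _ (rot_of_distTriang _ (rot_of_distTriang _ hT))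
  have e1 : Arrow.mk (Triangle.mk f g' δ').rotate.rotate.rotate.mor₁ ≅
      Arrow.mk (Triangle.mk a b c).mor₁ :=
    Arrow.isoMk (Iso.refl _) (Iso.refl _) (by
      change 𝟙 _ ≫ a = (-(shiftFunctor C (1 : ℤ)).map f) ≫ 𝟙 _
      rw [hf, Category.id_comp, Category.comp_id, neg_neg])
  obtain ⟨e', -, -⟩ := exists_iso_of_arrow_iso _ _ h3 h e1
  have e3 : Z'⟦(1 : ℤ)⟧ ≅ Z⟦(1 : ℤ)⟧ := Triangle.π₃.mapIso e'
  let e : Z' ≅ Z := (shiftFunctor C (1 : ℤ)).preimageIso e3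
  refine ⟨f, g' ≫ e.hom, e.inv ≫ δ', ?_⟩
  refine isomorphic_distinguished _ hT _ ?_
  exact Triangle.isoMk _ _ (Iso.refl _) (Iso.refl _) e.symm
    (by change f ≫ 𝟙 Y = 𝟙 X ≫ f; rw [Category.id_comp, Category.comp_id])
    (by change (g' ≫ e.hom) ≫ e.inv = 𝟙 Y ≫ g'
        rw [Category.assoc, e.hom_inv_id, Category.comp_id, Category.id_comp])
    (by change (e.inv ≫ δ') ≫ (𝟙 X)⟦(1 : ℤ)⟧' = e.inv ≫ δ'
        rw [CategoryTheory.Functor.map_id, Category.comp_id])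

/-- Octahedron for fibres. -/
theorem fibOct [IsTriangulated C] {F₁ F₂ F₃ X Y Z : C} {a₁ : F₁ ⟶ X} {f : X ⟶ Y}
    {c₁ : Y ⟶ F₁⟦(1 : ℤ)⟧} {a₂ : F₂ ⟶ Y} {g : Y ⟶ Z} {c₂ : Z ⟶ F₂⟦(1 : ℤ)⟧}
    {a₃ : F₃ ⟶ X} {k : X ⟶ Z} {c₃ : Z ⟶ F₃⟦(1 : ℤ)⟧}
    (h₁ : Triangle.mk a₁ f c₁ ∈ distTriang C) (h₂ : Triangle.mk a₂ g c₂ ∈ distTriang C)
    (h₃ : Triangle.mk a₃ k c₃ ∈ distTriang C) (hk : f ≫ g = k) :
    ∃ (u : F₁ ⟶ F₃) (v : F₃ ⟶ F₂) (w : F₂ ⟶ F₁⟦(1 : ℤ)⟧), Triangle.mk u v w ∈ distTriang C := by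
  have H := someOctahedron hk (rot_of_distTriang _ h₁) (rot_of_distTriang _ h₂)
    (rot_of_distTriang _ h₃)
  exact unshift _ _ _ H.mem

/-- pieces below the third object -/
theorem gr_iso₁ [IsTriangulated C] (t : TStructure C) (T : Triangle C) (hT : T ∈ distTriang C)
    (n : ℤ) (h : t.IsGE T.obj₃ (n + 1)) : Nonempty (gr t n T.obj₁ ≅ gr t n T.obj₂) := by
  have := t.isIso₁_truncLT_map_of_isGE T hT (n + 1) h
  exact ⟨(t.truncGE n).mapIso (asIso ((t.truncLT (n + 1)).map T.mor₁))⟩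

/-- pieces above the first object -/
theorem gr_iso₂ [IsTriangulated C] (t : TStructure C) (T : Triangle C) (hT : T ∈ distTriang C)
    (n : ℤ) (h : t.IsLE T.obj₁ (n - 1)) : Nonempty (gr t n T.obj₂ ≅ gr t n T.obj₃) := by
  have := t.isIso₂_truncGE_map_of_isLE T hT (n - 1) n (by omega) h
  exact ⟨(t.truncGELTIsoLTGE n (n + 1)).app T.obj₂ ≪≫
    (t.truncLT (n + 1)).mapIso (asIso ((t.truncGE n).map T.mor₂)) ≪≫
    (t.truncGELTIsoLTGE n (n + 1)).symm.app T.obj₃⟩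

theorem gr_iso_self (t : TStructure C) (n : ℤ) (X : C) (h1 : t.IsLE X n)
    (h2 : t.IsGE X n) : Nonempty (gr t n X ≅ X) := by
  have := (t.isLE_iff_isIso_truncLTι_app n (n + 1) rfl X).1 h1
  exact ⟨(t.truncGE n).mapIso (asIso ((t.truncLTι (n + 1)).app X)) ≪≫
    (asIso ((t.truncGEπ n).app X)).symm⟩

theorem gr_congr (t : TStructure C) (n : ℤ) {X Y : C} (e : X ≅ Y) :
    Nonempty (gr t n X ≅ gr t n Y) :=
  ⟨(t.truncGELT n (n + 1)).mapIso e⟩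

/-- transport of the outer objects of a triangle -/
theorem mk_congr {X Y Z Y' : C} {f : X ⟶ Y} {g : Y ⟶ Z} {δ : Z ⟶ X⟦(1 : ℤ)⟧}
    (h : Triangle.mk f g δ ∈ distTriang C) (e : Y' ≅ Y) :
    Triangle.mk (f ≫ e.inv) (e.hom ≫ g) δ ∈ distTriang C := by
  refine isomorphic_distinguished _ h _ ?_
  exact Triangle.isoMk _ _ (Iso.refl _) e (Iso.refl _)
    (by change (f ≫ e.inv) ≫ e.hom = 𝟙 X ≫ f
        rw [Category.assoc, e.inv_hom_id, Category.comp_id, Category.id_comp])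
    (by change (e.hom ≫ g) ≫ 𝟙 Z = e.hom ≫ g
        rw [Category.comp_id])
    (by change δ ≫ (𝟙 X)⟦(1 : ℤ)⟧' = 𝟙 Z ≫ δ
        rw [CategoryTheory.Functor.map_id, Category.comp_id, Category.id_comp])

/-- inverse rotation of a triangle whose last object is a shift -/
theorem invRot_shift {A B R : C} (u : B ⟶ R) (v : R ⟶ A⟦(1 : ℤ)⟧)
    (w : A⟦(1 : ℤ)⟧ ⟶ B⟦(1 : ℤ)⟧) (h : Triangle.mk u v w ∈ distTriang C) :
    ∃ (f : A ⟶ B) (g : B ⟶ R) (δ : R ⟶ A⟦(1 : ℤ)⟧), Triangle.mk f g δ ∈ distTriang C := by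
  obtain ⟨f, hf⟩ := (shiftFunctor C (1 : ℤ)).map_surjective (-w)
  refine ⟨f, u, v, (rotate_distinguished_triangle _).2 ?_⟩
  change Triangle.mk u v (-(shiftFunctor C (1 : ℤ)).map f) ∈ distTriang C
  rw [hf, neg_neg]
  exact h

theorem tower [IsTriangulated C] {K : Type w} [Field K] [Linear K C]
    [∀ n : ℤ, (shiftFunctor C n).Linear K] (D : EnriquesType K C) (L : Fin 10 → C)
    (t : TStructure C) (p : Fin 10 → ℤ) (h : Good D L t p) {S M B' : C}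
    (i : (D.W.obj (L 0))⟦(1 : ℤ)⟧ ⟶ S) (q : S ⟶ L 0)
    (ε : L 0 ⟶ (D.W.obj (L 0))⟦(1 : ℤ)⟧⟦(1 : ℤ)⟧)
    (hT : Triangle.mk i q ε ∈ distTriang C) (β : B' ⟶ M) (κ : M ⟶ S) (γ : S ⟶ B'⟦(1 : ℤ)⟧)
    (hB : Triangle.mk β κ γ ∈ distTriang C)
    (nA : ∀ (Z : C) (z : Z ⟶ M), t.IsLE Z (p 0 - 1) → z ≫ κ = 0)
    (hC : ∃ (Z : C) (z : Z ⟶ M), t.IsLE Z (p 0) ∧ z ≫ κ ≫ q ≠ 0) :
    (∀ n, n ≠ p 0 → Nonempty (gr t n B' ≅ gr t n M)) ∧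
    ∃ (R : C), t.IsLE R (p 0) ∧ t.IsGE R (p 0) ∧
      (∃ (f : D.W.obj (L 0) ⟶ gr t (p 0) B') (g : gr t (p 0) B' ⟶ R)
        (δ : R ⟶ (D.W.obj (L 0))⟦(1 : ℤ)⟧), Triangle.mk f g δ ∈ distTriang C) ∧
      (∃ (f : R ⟶ gr t (p 0) M) (g : gr t (p 0) M ⟶ L 0) (δ : L 0 ⟶ R⟦(1 : ℤ)⟧),
        Triangle.mk f g δ ∈ distTriang C) := by
  -- the truncations of `M`
  have hM := t.triangleLTGE_distinguished (p 0) M
  have h0 : (t.truncLTι (p 0)).app M ≫ κ = 0 := nA _ _ inferInstance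
  obtain ⟨κ', hκ'⟩ := Triangle.yoneda_exact₂ _ hM κ h0
  change (t.truncGE (p 0)).obj M ⟶ S at κ'
  change κ = (t.truncGEπ (p 0)).app M ≫ κ' at hκ'
  have hM' := t.triangleLTGE_distinguished (p 0 + 1) ((t.truncGE (p 0)).obj M)
  let H : C := (t.truncLT (p 0 + 1)).obj ((t.truncGE (p 0)).obj M)
  let ιH : H ⟶ (t.truncGE (p 0)).obj M := (t.truncLTι (p 0 + 1)).app _
  have hHle : t.IsLE H (p 0) := inferInstanceAs (t.IsLE ((t.truncLT (p 0 + 1)).obj _) (p 0))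
  have hHge : t.IsGE H (p 0) := by
    change t.IsGE ((t.truncLT (p 0 + 1)).obj ((t.truncGE (p 0)).obj M)) (p 0)
    infer_instance
  have hne : (ιH ≫ κ') ≫ q ≠ 0 := by
    obtain ⟨Z, z, hZ, hz⟩ := hC
    intro h1
    apply hz
    have hl := t.liftTruncLT_ι (z ≫ (t.truncGEπ (p 0)).app M) (p 0) (p 0 + 1) rfl
    rw [hκ']
    have h2 : z ≫ ((t.truncGEπ (p 0)).app M ≫ κ') ≫ q =
        (z ≫ (t.truncGEπ (p 0)).app M) ≫ κ' ≫ q := by simp only [Category.assoc]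
    rw [h2, ← hl]
    have h3 : (t.liftTruncLT (z ≫ (t.truncGEπ (p 0)).app M) (p 0) (p 0 + 1) rfl ≫
        (t.truncLTι (p 0 + 1)).app ((t.truncGE (p 0)).obj M)) ≫ κ' ≫ q =
        t.liftTruncLT (z ≫ (t.truncGEπ (p 0)).app M) (p 0) (p 0 + 1) rfl ≫
        ((ιH ≫ κ') ≫ q) := by simp only [Category.assoc, ιH]
    rw [h3, h1, comp_zero]
  -- the kernel `R`
  obtain ⟨R, r, r', hR⟩ := distinguished_cocone_triangle₁ ((ιH ≫ κ') ≫ q)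
  have hRle : t.IsLE R (p 0) := (h.smp 0).epi r _ r' hR hHle hne
  have hL1 := (h.smp 0).ge
  have hL2 := (h.smp 0).le
  have hW1 := (h.smpW 0).ge
  have hW2 := (h.smpW 0).le
  have hRge : t.IsGE R (p 0) := by
    refine t.isGE₂ _ (inv_rot_of_distTriang _ hR) (p 0) ?_ hHge
    change t.IsGE ((L 0)⟦(-1 : ℤ)⟧) (p 0)
    have := t.isGE_shift (L 0) (p 0) (-1) (p 0 + 1) (by omega)
    exact t.isGE_of_ge _ (p 0) (p 0 + 1) (by omega)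
  -- the fibre of `H ⟶ S`
  obtain ⟨BH, bH, bH', hBH⟩ := distinguished_cocone_triangle₁ (ιH ≫ κ')
  obtain ⟨u1, v1, w1, hX1⟩ := fibOct hBH hT hR rfl
  obtain ⟨f1, g1, δ1, hX1'⟩ := invRot_shift u1 v1 w1 hX1
  have hBHle : t.IsLE BH (p 0) := t.isLE₂ _ hX1' (p 0) hW2 hRle
  have hBHge : t.IsGE BH (p 0) := t.isGE₂ _ hX1' (p 0) hW1 hRge
  -- the fibre of `κ'`
  obtain ⟨B2, b2, b2', hB2⟩ := distinguished_cocone_triangle₁ κ'
  obtain ⟨uA, vA, wA, hA⟩ := fibOct hM hB2 hB hκ'.symm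
  obtain ⟨uB, vB, wB, hBB0⟩ := fibOct (inv_rot_of_distTriang _ hM') hB2 hBH rfl
  have hBB := rot_of_distTriang _ hBB0
  let N' : C := (t.truncGE (p 0 + 1)).obj ((t.truncGE (p 0)).obj M)
  let N : C := N'⟦(-1 : ℤ)⟧⟦(1 : ℤ)⟧
  have eN : N ≅ N' := (shiftFunctorCompIsoId C (-1 : ℤ) 1 (by norm_num)).app N'
  have hN' : t.IsGE N' (p 0 + 1) := by
    change t.IsGE ((t.truncGE (p 0 + 1)).obj _) (p 0 + 1)
    infer_instance
  have hN : t.IsGE N (p 0 + 1) := t.isGE_of_iso eN.symm (p 0 + 1)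
  have hN0 : t.IsGE N (p 0) := t.isGE_of_ge _ (p 0) (p 0 + 1) (by omega)
  have hB2ge : t.IsGE B2 (p 0) := t.isGE₂ _ hBB (p 0) hBHge hN0
  have hM1 : t.IsLE ((t.truncLT (p 0)).obj M) (p 0 - 1) := inferInstance
  have hM2 : t.IsGE ((t.truncGE (p 0)).obj M) (p 0) := inferInstance
  constructor
  · intro n hn
    rcases lt_or_gt_of_ne hn with hlt | hgt
    · obtain ⟨e1⟩ := gr_iso₁ t _ hA n (t.isGE_of_ge B2 (n + 1) (p 0) (by omega))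
      obtain ⟨e2⟩ := gr_iso₁ t _ hM n
        (t.isGE_of_ge ((t.truncGE (p 0)).obj M) (n + 1) (p 0) (by omega))
      exact ⟨e1.symm ≪≫ e2⟩
    · obtain ⟨e1⟩ := gr_iso₂ t _ hA n
        (t.isLE_of_le ((t.truncLT (p 0)).obj M) (p 0 - 1) (n - 1) (by omega))
      obtain ⟨e2⟩ := gr_iso₂ t _ hBB n (t.isLE_of_le BH (p 0) (n - 1) (by omega))
      obtain ⟨e3⟩ := gr_congr t n eN
      obtain ⟨e4⟩ := gr_iso₂ t _ hM' n (t.isLE_of_le H (p 0) (n - 1) (by omega))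
      obtain ⟨e5⟩ := gr_iso₂ t _ hM n
        (t.isLE_of_le ((t.truncLT (p 0)).obj M) (p 0 - 1) (n - 1) (by omega))
      exact ⟨e1 ≪≫ e2 ≪≫ e3 ≪≫ e4.symm ≪≫ e5.symm⟩
  · refine ⟨R, hRle, hRge, ?_, ?_⟩
    · obtain ⟨e1⟩ := gr_iso₂ t _ hA (p 0) hM1
      obtain ⟨e2⟩ := gr_iso₁ t _ hBB (p 0) hN
      obtain ⟨e3⟩ := gr_iso_self t (p 0) BH hBHle hBHge
      exact ⟨_, _, _, mk_congr hX1' (e1 ≪≫ e2.symm ≪≫ e3)⟩
    · exact ⟨_, _, _, mk_congr hR ((t.truncGELTIsoLTGE (p 0) (p 0 + 1)).app M)⟩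

end Pool.Agent.Helper78.KU
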